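import Mathlib
import Pool.Agent.Lib.MP_d2e2bc_co.Main

set_option autoImplicit false

namespace Pool.Agent.Results.MP_d2e2bc_co.AllPlanarAffineDO

open Polynomial

universe u

/-- Functions of the normal form of the problem (auxiliary, used only in the proof). -/
def Good {F : Type u} [Field F] (m : ℕ) (g : F → F) : Prop :=
  ∃ (a : Fin m → Fin m → F) (c : Fin m → F) (d : F), ∀ x : F,
    g x = (∑ j : Fin m, ∑ i ∈ Finset.Iio j, a i j * x ^ (2 ^ (i : ℕ) + 2 ^ (j : ℕ))) +
      (∑ i : Fin m, c i * x ^ (2 ^ (i : ℕ)) + d)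

section aux

variable {F : Type u} [Field F] {m : ℕ}

lemma Good.const (d : F) : Good m (fun _ : F => d) :=
  ⟨0, 0, d, fun x => by simp⟩

lemma Good.add {g h : F → F} (hg : Good m g) (hh : Good m h) : Good m (fun x => g x + h x) := by
  obtain ⟨a, c, d, h1⟩ := hg
  obtain ⟨a', c', d', h2⟩ := hh
  refine ⟨a + a', c + c', d + d', fun x => ?_⟩
  simp only [h1, h2, Pi.add_apply, add_mul, Finset.sum_add_distrib]
  ring

lemma Good.sum {ι : Type} (S : Finset ι) (g : ι → F → F) (hg : ∀ p ∈ S, Good m (g p)) :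
    Good m (fun x => ∑ p ∈ S, g p x) := by
  classical
  induction S using Finset.induction_on with
  | empty => simpa using Good.const (m := m) (0 : F)
  | insert p S hp ih =>
    simp only [Finset.sum_insert hp]
    exact (hg p (Finset.mem_insert_self _ _)).add
      (ih fun q hq => hg q (Finset.mem_insert_of_mem hq))

lemma Good.lin (t : F) (i : Fin m) : Good m (fun x : F => t * x ^ (2 ^ (i : ℕ))) := by
  classical
  refine ⟨0, Pi.single i t, 0, fun x => ?_⟩
  simp [Pi.single_apply]

lemma Good.quad (t : F) (i j : Fin m) (hij : i < j) :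
    Good m (fun x : F => t * x ^ (2 ^ (i : ℕ) + 2 ^ (j : ℕ))) := by
  classical
  refine ⟨fun i' j' => if i' = i ∧ j' = j then t else 0, 0, 0, fun x => ?_⟩
  simp only [Pi.zero_apply, zero_mul, Finset.sum_const_zero, add_zero]
  rw [Finset.sum_eq_single j]
  · rw [Finset.sum_eq_single i]
    · simp
    · intro b _ hb
      simp [hb]
    · intro h
      exact absurd (Finset.mem_Iio.2 hij) h
  · intro b _ hb
    simp [hb]
  · simp

lemma pow_two_pow_mod [Fintype F] (hF : Fintype.card F = 2 ^ m) (x : F) (k : ℕ) :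
    x ^ (2 ^ k) = x ^ (2 ^ (k % m)) := by
  conv_lhs => rw [← Nat.div_add_mod k m, pow_add, pow_mul, pow_mul, ← hF,
    FiniteField.pow_card_pow]

lemma Good.mono [Fintype F] (hm : 1 ≤ m) (hF : Fintype.card F = 2 ^ m) (t : F) (k l : ℕ) :
    Good m (fun x : F => t * x ^ (2 ^ k + 2 ^ l)) := by
  have h : (fun x : F => t * x ^ (2 ^ k + 2 ^ l)) =
      fun x : F => t * x ^ (2 ^ (k % m) + 2 ^ (l % m)) := by
    funext x
    rw [pow_add, pow_add, pow_two_pow_mod hF x k, pow_two_pow_mod hF x l]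
  rw [h]
  have hk : k % m < m := Nat.mod_lt _ hm
  have hl : l % m < m := Nat.mod_lt _ hm
  rcases lt_trichotomy (k % m) (l % m) with h1 | h1 | h1
  · exact Good.quad t ⟨_, hk⟩ ⟨_, hl⟩ h1
  · have h2 : (fun x : F => t * x ^ (2 ^ (k % m) + 2 ^ (l % m))) =
        fun x : F => t * x ^ (2 ^ ((k % m + 1) % m)) := by
      funext x
      rw [← h1, ← pow_two_pow_mod hF x (k % m + 1), pow_succ, mul_two]
    rw [h2]
    exact Good.lin t ⟨_, Nat.mod_lt _ hm⟩
  · have h2 : (fun x : F => t * x ^ (2 ^ (k % m) + 2 ^ (l % m))) =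
        fun x : F => t * x ^ (2 ^ (l % m) + 2 ^ (k % m)) := by
      funext x
      rw [add_comm]
    rw [h2]
    exact Good.quad t ⟨_, hl⟩ ⟨_, hk⟩ h1

lemma good_of_planar [Fintype F] (hm : 1 ≤ m) (hF : Fintype.card F = 2 ^ m) (f : F → F)
    (hf : ∀ a : F, a ≠ 0 → Function.Bijective (fun x : F => f (x + a) + f x + a * x)) :
    Good m f := by
  classical
  have : Fact (Nat.Prime 2) := ⟨Nat.prime_two⟩
  have : Fintype (GaloisField 2 m) := Fintype.ofFinite _
  have hc : Fintype.card F = Fintype.card (GaloisField 2 m) := by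
    rw [hF, ← Nat.card_eq_fintype_card, GaloisField.card 2 m (by omega)]
  let e : F ≃+* GaloisField 2 m := FiniteField.ringEquivOfCardEq hc
  have hg : Pool.Agent.Lib.MP_d2e2bc_co.Planar (F := GaloisField 2 m)
      (fun y => e (f (e.symm y))) := by
    intro ε hε
    have h1 : (fun x : GaloisField 2 m => e (f (e.symm (x + ε))) + e (f (e.symm x)) + ε * x) =
        e ∘ (fun x : F => f (x + e.symm ε) + f x + e.symm ε * x) ∘ e.symm := by
      funext x
      simp
    rw [h1]
    exact e.bijective.comp ((hf _ (by simpa using hε)).comp e.symm.bijective)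
  obtain ⟨S, a, c, h⟩ := Pool.Agent.Lib.MP_d2e2bc_co.isDO_of_planar (F := GaloisField 2 m) hg
  have h2 : f = fun x => e.symm c + ∑ p ∈ S, e.symm (a p) * x ^ (2 ^ p.1 + 2 ^ p.2) := by
    funext x
    apply e.injective
    have h3 := h (e x)
    simp only [RingEquiv.symm_apply_apply] at h3
    rw [h3]
    simp
  rw [h2]
  exact (Good.const _).add (Good.sum S _ fun p _ => Good.mono hm hF _ _ _)

end aux

/-- For every `m ≥ 1` and every field `F` with `2 ^ m` elements, every planar function `F → F`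
is induced by an affine Dembowski–Ostrom polynomial
`∑_{0 ≤ i < j < m} a i j X ^ (2 ^ i + 2 ^ j) + ∑_{i < m} c i X ^ (2 ^ i) + d`. -/
theorem result (m : ℕ) (hm : 1 ≤ m) (F : Type u) [Field F] [Fintype F]
    (hF : Fintype.card F = 2 ^ m) (f : F → F)
    (hf : ∀ a : F, a ≠ 0 → Function.Bijective (fun x : F => f (x + a) + f x + a * x)) :
    ∃ (a : Fin m → Fin m → F) (c : Fin m → F) (d : F), ∀ x : F,
      f x = Polynomial.eval x
        ((∑ j : Fin m, ∑ i ∈ Finset.Iio j,
            Polynomial.C (a i j) * Polynomial.X ^ (2 ^ (i : ℕ) + 2 ^ (j : ℕ))) +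
          (∑ i : Fin m, Polynomial.C (c i) * Polynomial.X ^ (2 ^ (i : ℕ)) + Polynomial.C d)) := by
  obtain ⟨a, c, d, h⟩ := good_of_planar hm hF f hf
  refine ⟨a, c, d, fun x => ?_⟩
  rw [h x]
  simp [Polynomial.eval_finsetSum]

end Pool.Agent.Results.MP_d2e2bc_co.AllPlanarAffineDO
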